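import Pool.Agent.K3h20.FB.Stm

/-!
# Flipped blocks have only trivial relations
-/

set_option autoImplicit false

open Polynomial

noncomputable section

namespace Pool.Agent.K3h20.FB

section basic

variable {p a : ℕ}

theorem q_ne (hp : p.Prime) : (p : ℂ) ^ a ≠ 0 := pow_ne_zero _ (Nat.cast_ne_zero.2 hp.ne_zero)

theorem rt_map {P : ℤ[X]} {z : ℂ} (h : Rt P z) (σ : ℂ →+* ℂ) : Rt P (σ z) := by
  unfold Rt at h ⊢
  have h2 : P.map (Int.castRingHom ℂ) = (P.map (Int.castRingHom ℂ)).map σ := by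
    rw [Polynomial.map_map]; congr 1; exact RingHom.ext_int _ _
  rw [h2]
  exact h.map

theorem weil_ne (hp : p.Prime) {z : ℂ} (hz : ‖z‖ ^ 2 = (p : ℝ) ^ a) : z ≠ 0 := by
  rintro rfl
  rw [norm_zero] at hz
  exact pow_ne_zero a (Nat.cast_ne_zero.2 hp.ne_zero) (by rw [← hz]; norm_num)

theorem weil_conj (hp : p.Prime) {z : ℂ} (hz : ‖z‖ ^ 2 = (p : ℝ) ^ a) :
    starRingEnd ℂ z = (p : ℂ) ^ a / z := by
  rw [eq_div_iff (weil_ne hp hz)]
  have h1 := Complex.mul_conj z
  rw [Complex.normSq_eq_norm_sq, hz] at h1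
  rw [mul_comm, h1]
  push_cast
  rfl

theorem ss_div (hp : p.Prime) {z : ℂ} (hz : z ≠ 0) (h : SSg p a ((p : ℂ) ^ a / z)) :
    SSg p a z := by
  obtain ⟨t, ht, h⟩ := h
  refine ⟨t, ht, ?_⟩
  have hq0 := q_ne (a := a) hp
  rw [div_pow, div_pow, ← pow_mul, mul_comm 2 t, pow_mul, sq, mul_div_assoc,
    mul_eq_left₀ (pow_ne_zero _ hq0), div_eq_one_iff_eq (pow_ne_zero _ (pow_ne_zero _ hz))] at h
  exact h.symm

theorem ss_map {z : ℂ} (σ : ℂ ≃+* ℂ) (h : SSg p a (σ z)) : SSg p a z := by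
  obtain ⟨t, ht, h⟩ := h
  refine ⟨t, ht, σ.injective ?_⟩
  rw [map_pow, map_pow, map_pow, map_pow, map_natCast]
  exact h

end basic

section roots

variable {p a : ℕ} {κ J : Type} (P : κ → ℤ[X])

/-- the roots which are not supersingular -/
def XX (p a : ℕ) : Type := {z : ℂ // (∃ i, Rt (P i) z) ∧ ¬ SSg p a z}

theorem finXX [Finite κ] (hw : ∀ i, IsWeilPoly p a (P i)) : Finite (XX P p a) := by
  have h1 : {z : ℂ | ∃ i, Rt (P i) z}.Finite := by
    have : {z : ℂ | ∃ i, Rt (P i) z} = ⋃ i, {z | Rt (P i) z} := by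
      ext z
      simp
    rw [this]
    exact Set.finite_iUnion fun i =>
      Polynomial.finite_setOf_isRoot ((hw i).1.map (Int.castRingHom ℂ)).ne_zero
  exact (h1.subset fun z hz => hz.1 : {z : ℂ | (∃ i, Rt (P i) z) ∧ ¬ SSg p a z}.Finite)

variable {P}

theorem XX.ne0 (hp : p.Prime) (hw : ∀ i, IsWeilPoly p a (P i)) (x : XX P p a) : x.1 ≠ 0 := by
  obtain ⟨i, hi⟩ := x.2.1
  exact weil_ne hp ((hw i).2 _ hi)

/-- complex conjugation -/
def cj (hp : p.Prime) (hw : ∀ i, IsWeilPoly p a (P i)) (x : XX P p a) : XX P p a :=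
  ⟨(p : ℂ) ^ a / x.1, by
    obtain ⟨i, hi⟩ := x.2.1
    refine ⟨⟨i, ?_⟩, fun h => x.2.2 (ss_div hp (x.ne0 hp hw) h)⟩
    rw [← weil_conj hp ((hw i).2 _ hi)]
    exact rt_map hi _⟩

theorem cj_cj (hp : p.Prime) (hw : ∀ i, IsWeilPoly p a (P i)) (x : XX P p a) :
    cj hp hw (cj hp hw x) = x := by
  apply Subtype.ext
  change (p : ℂ) ^ a / ((p : ℂ) ^ a / x.1) = x.1
  have h1 := x.ne0 hp hw
  have h2 := q_ne (a := a) hp
  field_simp

/-- conjugates of roots -/
def mp (σ : ℂ ≃+* ℂ) (x : XX P p a) : XX P p a :=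
  ⟨σ x.1, by
    obtain ⟨i, hi⟩ := x.2.1
    exact ⟨⟨i, rt_map hi (σ : ℂ →+* ℂ)⟩, fun h => x.2.2 (ss_map σ h)⟩⟩

/-- the permutation of the roots -/
def pm (σ : ℂ ≃+* ℂ) : Equiv.Perm (XX P p a) where
  toFun := mp σ
  invFun := mp σ.symm
  left_inv x := Subtype.ext (σ.symm_apply_apply x.1)
  right_inv x := Subtype.ext (σ.apply_symm_apply x.1)

variable (P p a) in
/-- the Galois group -/
def HH : Subgroup (Equiv.Perm (XX P p a)) where
  carrier := {h | ∃ σ : ℂ ≃+* ℂ, ∀ x, (h x).1 = σ x.1}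
  mul_mem' := by
    rintro h1 h2 ⟨σ1, e1⟩ ⟨σ2, e2⟩
    refine ⟨σ2.trans σ1, fun x => ?_⟩
    rw [Equiv.Perm.mul_apply, e1, e2]
    rfl
  one_mem' := ⟨RingEquiv.refl _, fun x => rfl⟩
  inv_mem' := by
    rintro h ⟨σ, e⟩
    refine ⟨σ.symm, fun x => ?_⟩
    have h1 := e (h⁻¹ x)
    have h2 : h (h⁻¹ x) = x := h.apply_symm_apply x
    rw [h2] at h1
    rw [h1, RingEquiv.symm_apply_apply]

theorem pm_mem (σ : ℂ ≃+* ℂ) : pm σ ∈ HH p a P := ⟨σ, fun _ => rfl⟩

/-- exponents of roots of unity -/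
def Tor [Fintype (XX P p a)] (e : XX P p a → ℤ) : Prop :=
  ∃ s : ℕ, 0 < s ∧ (∏ x, (x.1 : ℂ) ^ e x) ^ s = 1

/-- the space of the odd relations -/
def NN [Fintype (XX P p a)] (hp : p.Prime) (hw : ∀ i, IsWeilPoly p a (P i)) :
    Submodule ℚ (XX P p a → ℚ) where
  carrier := {c | (∀ x, c (cj hp hw x) = -c x) ∧ ∃ k : ℕ, 0 < k ∧ ∃ e : XX P p a → ℤ,
    (∀ x, (k : ℚ) * c x = e x) ∧ Tor e}
  zero_mem' := ⟨fun x => by simp, 1, one_pos, 0, fun x => by simp, 1, one_pos, by simp⟩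
  add_mem' := by
    rintro c1 c2 ⟨o1, k1, hk1, e1, he1, s1, hs1, h1⟩ ⟨o2, k2, hk2, e2, he2, s2, hs2, h2⟩
    refine ⟨fun x => by simp only [Pi.add_apply, o1, o2]; ring, k1 * k2, Nat.mul_pos hk1 hk2,
      fun x => e1 x * k2 + e2 x * k1, fun x => ?_, s1 * s2, Nat.mul_pos hs1 hs2, ?_⟩
    · have e1' := he1 x
      have e2' := he2 x
      simp only [Pi.add_apply]
      push_cast
      rw [← e1', ← e2']
      ring
    · have e3 : ∏ x : XX P p a, (x.1 : ℂ) ^ (e1 x * k2 + e2 x * k1) =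
          (∏ x : XX P p a, (x.1 : ℂ) ^ e1 x) ^ k2 * (∏ x : XX P p a, (x.1 : ℂ) ^ e2 x) ^ k1 := by
        rw [← Finset.prod_pow, ← Finset.prod_pow, ← Finset.prod_mul_distrib]
        refine Finset.prod_congr rfl fun x _ => ?_
        rw [zpow_add₀ (x.ne0 hp hw), zpow_mul, zpow_mul, zpow_natCast, zpow_natCast]
      rw [e3, mul_pow]
      have e4 : ((∏ x : XX P p a, (x.1 : ℂ) ^ e1 x) ^ k2) ^ (s1 * s2) = 1 := by
        rw [← pow_mul, show k2 * (s1 * s2) = s1 * (k2 * s2) by ring, pow_mul, h1, one_pow]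
      have e5 : ((∏ x : XX P p a, (x.1 : ℂ) ^ e2 x) ^ k1) ^ (s1 * s2) = 1 := by
        rw [← pow_mul, show k1 * (s1 * s2) = s2 * (k1 * s1) by ring, pow_mul, h2, one_pow]
      rw [e4, e5, one_mul]
  smul_mem' := by
    rintro r c ⟨o, k, hk, e, he, s, hs, h⟩
    refine ⟨fun x => by simp only [Pi.smul_apply, smul_eq_mul, o]; ring, k * r.den,
      Nat.mul_pos hk r.den_pos, fun x => e x * r.num, fun x => ?_, s, hs, ?_⟩
    · have e1 := he x
      simp only [Pi.smul_apply, smul_eq_mul]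
      push_cast
      rw [← e1]
      have h2 : (r.den : ℚ) * r = r.num := Rat.den_mul_eq_num r
      calc (k : ℚ) * r.den * (r * c x) = (k * c x) * (r.den * r) := by ring
        _ = (k * c x) * r.num := by rw [h2]
    · have e3 : ∏ x : XX P p a, (x.1 : ℂ) ^ (e x * r.num) =
          (∏ x : XX P p a, (x.1 : ℂ) ^ e x) ^ r.num := by
        rw [← Finset.prod_zpow]
        refine Finset.prod_congr rfl fun x _ => ?_
        rw [zpow_mul]
      rw [e3, ← zpow_natCast, ← zpow_mul, mul_comm, zpow_mul, zpow_natCast, h, one_zpow]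

end roots

section multisets

variable {p a : ℕ}

theorem norm_prod (R : Multiset ℂ) (h : ∀ z ∈ R, ‖z‖ ^ 2 = (p : ℝ) ^ a) :
    ‖R.prod‖ ^ 2 = ((p : ℝ) ^ a) ^ R.card := by
  induction R using Multiset.induction_on with
  | empty => simp
  | cons z R ih =>
    rw [Multiset.prod_cons, norm_mul, mul_pow, h z (Multiset.mem_cons_self z R),
      ih fun w hw => h w (Multiset.mem_cons_of_mem hw), Multiset.card_cons, pow_succ]
    ring

/-- the number of the factors of a relation -/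
theorem card_rel (hp : p.Prime) (ha : 0 < a) (R : Multiset ℂ)
    (h : ∀ z ∈ R, ‖z‖ ^ 2 = (p : ℝ) ^ a) (m s : ℕ) (hs : 0 < s)
    (hR : R.prod ^ s = (((p : ℂ) ^ a) ^ m) ^ s) : R.card = 2 * m := by
  have h1 := norm_prod R h
  have h2 : ‖R.prod‖ ^ s = (((p : ℝ) ^ a) ^ m) ^ s := by
    rw [← norm_pow, hR]
    simp
  have h3 : ((p : ℝ) ^ a) ^ (R.card * s) = ((p : ℝ) ^ a) ^ (2 * m * s) := by
    rw [pow_mul, ← h1, ← pow_mul, mul_comm 2 s, pow_mul, h2, ← pow_mul, ← pow_mul]
    congr 1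
    ring
  have hq : 1 < (p : ℝ) ^ a := one_lt_pow₀ (by exact_mod_cast hp.one_lt) ha.ne'
  have h4 := pow_right_injective₀ (by positivity) hq.ne' h3
  exact Nat.eq_of_mul_eq_mul_right hs h4

/-- a product of roots of unity -/
theorem tor_map (R : Multiset ℂ) (f : ℂ → ℂ) (h : ∀ z ∈ R, ∃ t : ℕ, 0 < t ∧ f z ^ t = 1) :
    ∃ t : ℕ, 0 < t ∧ (R.map f).prod ^ t = 1 := by
  induction R using Multiset.induction_on with
  | empty => exact ⟨1, one_pos, by simp⟩
  | cons z R ih =>
    obtain ⟨t, ht, h1⟩ := ih fun w hw => h w (Multiset.mem_cons_of_mem hw)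
    obtain ⟨t', ht', h2⟩ := h z (Multiset.mem_cons_self z R)
    refine ⟨t * t', Nat.mul_pos ht ht', ?_⟩
    rw [Multiset.map_cons, Multiset.prod_cons, mul_pow, mul_comm t t', pow_mul, h2, one_pow,
      mul_comm t' t, pow_mul, h1, one_pow, one_mul]

theorem prod_div (hp : p.Prime) (R : Multiset ℂ) (h : ∀ z ∈ R, z ≠ 0) :
    (R.map fun z => z / ((p : ℂ) ^ a / z)).prod * ((p : ℂ) ^ a) ^ R.card = R.prod ^ 2 := by
  have hq := q_ne (a := a) hp
  induction R using Multiset.induction_on with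
  | empty => simp
  | cons z R ih =>
    have h1 := ih fun w hw => h w (Multiset.mem_cons_of_mem hw)
    have h2 := h z (Multiset.mem_cons_self z R)
    rw [Multiset.map_cons, Multiset.prod_cons, Multiset.prod_cons, Multiset.card_cons, pow_succ,
      mul_pow, ← h1]
    field_simp

open Classical in
theorem prod_count {κ : Type} {P : κ → ℤ[X]} [Fintype (XX P p a)] (f : ℂ → ℂ) (R : Multiset ℂ)
    (h : ∀ z ∈ R, (∃ i, Rt (P i) z) ∧ ¬ SSg p a z) :
    (R.map f).prod = ∏ x : XX P p a, f x.1 ^ R.count x.1 := by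
  induction R using Multiset.induction_on with
  | empty => simp
  | cons z R ih =>
    have h1 := ih fun w hw => h w (Multiset.mem_cons_of_mem hw)
    have h2 := h z (Multiset.mem_cons_self z R)
    rw [Multiset.map_cons, Multiset.prod_cons, h1]
    let x₁ : XX P p a := ⟨z, h2⟩
    have h3 : ∀ x : XX P p a, f x.1 ^ (z ::ₘ R).count x.1 =
        f x.1 ^ R.count x.1 * (if x = x₁ then f z else 1) := by
      intro x
      rw [Multiset.count_cons, pow_add]
      congr 1
      by_cases hx : x = x₁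
      · have h4 : x.1 = z := congrArg Subtype.val hx
        rw [if_pos hx, if_pos h4, pow_one, h4]
      · rw [if_neg hx, if_neg, pow_zero]
        intro h4
        exact hx (Subtype.ext h4)
    have h5 : ∏ x : XX P p a, (if x = x₁ then f z else 1) = f z := by
      rw [Finset.prod_ite_eq' Finset.univ x₁ (fun _ => f z), if_pos (Finset.mem_univ _)]
    rw [Finset.prod_congr rfl fun x _ => h3 x, Finset.prod_mul_distrib, h5, mul_comm]

end multisets

open Classical in
theorem t_BLK_of (hdec : S_DEC) : S_BLK := by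
  intro p a hp ha κ J _ P b hB
  have hw := hB.weil
  haveI := finXX P hw
  letI := Fintype.ofFinite (XX P p a)
  have hq0 := q_ne (a := a) hp
  -- blocks
  have hblk : ∀ (x : XX P p a) (i k : κ), Rt (P i) x.1 → Rt (P k) x.1 → b i = b k := by
    intro x i k hi hk
    by_contra hne
    rcases hB.flip i k hne x.1 x.1 hi hk with h | ⟨σ, h1, h2⟩
    · exact x.2.2 h
    · apply x.2.2
      refine ⟨1, one_pos, ?_⟩
      rw [h1, eq_div_iff (x.ne0 hp hw), ← sq] at h2
      rw [pow_one, pow_one, h2]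
  choose ix hix using fun x : XX P p a => x.2.1
  let bl : XX P p a → J := fun x => b (ix x)
  have hbl : ∀ (x : XX P p a) (i : κ), Rt (P i) x.1 → bl x = b i := fun x i hi =>
    hblk x _ _ (hix x) hi
  intro R hR m s hs hprod z hz
  by_cases hss : SSg p a z
  · exact Or.inl hss
  right
  have hz' : ∃ i, Rt (P i) z := by
    obtain ⟨_, ⟨i, rfl⟩, h⟩ := hz
    exact ⟨i, h⟩
  have hR' : ∀ w ∈ R, ∃ i, Rt (P i) w := by
    intro w hw'
    obtain ⟨_, ⟨i, rfl⟩, h⟩ := hR w hw'
    exact ⟨i, h⟩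
  have hRn : ∀ w ∈ R, ‖w‖ ^ 2 = (p : ℝ) ^ a := by
    intro w hw'
    obtain ⟨i, hi⟩ := hR' w hw'
    exact (hw i).2 w hi
  have hcard := card_rel hp ha R hRn m s hs hprod
  let x₀ : XX P p a := ⟨z, hz', hss⟩
  let e : XX P p a → ℤ := fun x => (R.count x.1 : ℤ) - R.count (cj hp hw x).1
  -- the exponents form a relation
  have hTor : Tor e := by
    let f : ℂ → ℂ := fun z => z / ((p : ℂ) ^ a / z)
    let R1 := R.filter fun z => SSg p a z
    let R2 := R.filter fun z => ¬ SSg p a z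
    have hsum : R1 + R2 = R := Multiset.filter_add_not _ _
    have h1 : (R.map f).prod ^ s = 1 := by
      have h2 := prod_div (a := a) hp R fun w hw' => weil_ne hp (hRn w hw')
      have h3 : (R.map f).prod ^ s * (((p : ℂ) ^ a) ^ R.card) ^ s =
          (((p : ℂ) ^ a) ^ R.card) ^ s := by
        rw [← mul_pow]
        change ((R.map fun z => z / ((p : ℂ) ^ a / z)).prod * ((p : ℂ) ^ a) ^ R.card) ^ s = _
        rw [h2, ← pow_mul, mul_comm 2 s, pow_mul, hprod, hcard]
        ring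
      exact (mul_eq_right₀ (pow_ne_zero _ (pow_ne_zero _ hq0))).mp h3
    obtain ⟨t, ht, h2⟩ := tor_map R1 f (by
      intro w hw'
      obtain ⟨h3, t, ht, h4⟩ := Multiset.mem_filter.mp hw'
      refine ⟨t, ht, ?_⟩
      have h5 := weil_ne hp (hRn w h3)
      have h6 : f w = w ^ 2 / (p : ℂ) ^ a := by
        change w / ((p : ℂ) ^ a / w) = _
        field_simp
      rw [h6, div_pow, h4, div_self (pow_ne_zero _ hq0)])
    have h3 : (R2.map f).prod ^ (s * t) = 1 := by
      have h4 : (R.map f).prod = (R1.map f).prod * (R2.map f).prod := by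
        rw [← Multiset.prod_add, ← Multiset.map_add, hsum]
      have h5 : (R.map f).prod ^ (s * t) = 1 := by rw [pow_mul, h1, one_pow]
      rw [h4, mul_pow, mul_comm s t, pow_mul (R1.map f).prod, h2, one_pow, one_mul] at h5
      rw [mul_comm s t]
      exact h5
    refine ⟨s * t, Nat.mul_pos hs ht, ?_⟩
    rw [← h3]
    congr 1
    rw [prod_count (P := P) (p := p) (a := a) f R2 (by
      intro w hw'
      obtain ⟨h4, h5⟩ := Multiset.mem_filter.mp hw'
      exact ⟨hR' w h4, h5⟩)]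
    have h4 : ∀ x : XX P p a, R2.count x.1 = R.count x.1 := fun x =>
      Multiset.count_filter_of_pos x.2.2
    have h5 : ∏ x : XX P p a, f x.1 ^ R2.count x.1 =
        (∏ x : XX P p a, x.1 ^ (R.count x.1 : ℤ)) * ∏ x : XX P p a, (cj hp hw x).1 ^ (-(R.count x.1 : ℤ)) := by
      rw [← Finset.prod_mul_distrib]
      refine Finset.prod_congr rfl fun x _ => ?_
      rw [h4, zpow_neg, zpow_natCast, zpow_natCast]
      change (x.1 / ((p : ℂ) ^ a / x.1)) ^ R.count x.1 =
        x.1 ^ R.count x.1 * (((p : ℂ) ^ a / x.1) ^ R.count x.1)⁻¹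
      rw [div_pow x.1, div_eq_mul_inv]
    have h6 : ∏ x : XX P p a, (cj hp hw x).1 ^ (-(R.count x.1 : ℤ)) =
        ∏ x : XX P p a, x.1 ^ (-(R.count (cj hp hw x).1 : ℤ)) := by
      refine Finset.prod_bij' (fun x _ => cj hp hw x) (fun x _ => cj hp hw x)
        (fun _ _ => Finset.mem_univ _) (fun _ _ => Finset.mem_univ _) (fun x _ => cj_cj hp hw x)
        (fun x _ => cj_cj hp hw x) fun x _ => ?_
      rw [cj_cj]
    rw [h5, h6, ← Finset.prod_mul_distrib]
    refine Finset.prod_congr rfl fun x _ => ?_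
    rw [← zpow_add₀ (x.ne0 hp hw)]
    rfl
  have hodd : ∀ x, e (cj hp hw x) = - e x := by
    intro x
    change (R.count (cj hp hw x).1 : ℤ) - R.count (cj hp hw (cj hp hw x)).1 =
      -((R.count x.1 : ℤ) - R.count (cj hp hw x).1)
    rw [cj_cj]
    ring
  have hmem : (fun x => (e x : ℚ)) ∈ NN hp hw := by
    refine ⟨fun x => ?_, 1, one_pos, e, fun x => ?_, hTor⟩
    · change ((e (cj hp hw x) : ℤ) : ℚ) = -((e x : ℤ) : ℚ)
      rw [hodd]
      push_cast
      rfl
    · push_cast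
      ring
  -- the component in the block of `z`
  have hcomp := hdec (XX P p a) J (HH p a P) (cj hp hw) (cj_cj hp hw)
    (by
      rintro h ⟨σ, hσ⟩ x
      apply Subtype.ext
      change (h (cj hp hw x)).1 = (p : ℂ) ^ a / (h x).1
      rw [hσ, hσ]
      change σ ((p : ℂ) ^ a / x.1) = _
      rw [map_div₀, map_pow, map_natCast])
    bl
    (by
      intro x
      refine hbl _ _ ?_
      change Rt (P (ix x)) ((p : ℂ) ^ a / x.1)
      rw [← weil_conj hp ((hw _).2 _ (hix x))]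
      exact rt_map (hix x) _)
    (by
      rintro h ⟨σ, hσ⟩ x
      refine hbl _ _ ?_
      rw [hσ]
      exact rt_map (hix x) (σ : ℂ →+* ℂ))
    (by
      intro x y hxy
      rcases hB.flip (ix x) (ix y) hxy x.1 y.1 (hix x) (hix y) with h | ⟨σ, h1, h2⟩
      · exact absurd h y.2.2
      · exact ⟨pm σ, pm_mem σ, Subtype.ext h1, Subtype.ext h2⟩)
    (NN hp hw) (fun c hc x => hc.1 x)
    (by
      rintro h ⟨σ, hσ⟩ c ⟨o, k, hk, e', he', s', hs', h'⟩
      have hcomm : ∀ x, h (cj hp hw x) = cj hp hw (h x) := by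
        intro x
        apply Subtype.ext
        change (h (cj hp hw x)).1 = (p : ℂ) ^ a / (h x).1
        rw [hσ, hσ]
        change σ ((p : ℂ) ^ a / x.1) = _
        rw [map_div₀, map_pow, map_natCast]
      refine ⟨fun x => ?_, k, hk, fun x => e' (h x), fun x => he' _, s', hs', ?_⟩
      · change c (h (cj hp hw x)) = - c (h x)
        rw [hcomm, o]
      · have h1 : σ ((∏ x : XX P p a, x.1 ^ e' (h x)) ^ s') = 1 := by
          rw [map_pow, map_prod, ← h']
          congr 1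
          rw [← Equiv.prod_comp h fun x : XX P p a => x.1 ^ e' x]
          refine Finset.prod_congr rfl fun x _ => ?_
          rw [map_zpow₀, hσ]
        exact σ.injective (h1.trans (map_one σ).symm))
    _ hmem (bl x₀)
  obtain ⟨ho₁, k, hk, e', he₁, s', hs', hT⟩ := hcomp
  have he' : ∀ x, (k : ℚ) * (if bl x = bl x₀ then (e x : ℚ) else 0) = e' x := he₁
  have ho : ∀ x, (if bl (cj hp hw x) = bl x₀ then (e (cj hp hw x) : ℚ) else 0) =
    -(if bl x = bl x₀ then (e x : ℚ) else 0) := ho₁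
  have hoff : ∀ x, bl x ≠ bl x₀ → e' x = 0 := by
    intro x hx
    have h1 := he' x
    rw [if_neg hx, mul_zero] at h1
    exact_mod_cast h1.symm
  have hodd' : ∀ x, e' (cj hp hw x) = - e' x := by
    intro x
    have h1 := he' (cj hp hw x)
    have h2 := he' x
    have h3 := ho x
    rw [h3, mul_neg, h2] at h1
    exact_mod_cast h1.symm
  -- the multiset
  let M : Multiset ℂ := ∑ x : XX P p a, Multiset.replicate (2 * (e' x).toNat) x.1
  have hMc : ∀ x : XX P p a, M.count x.1 = 2 * (e' x).toNat := by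
    intro x
    change (∑ y : XX P p a, Multiset.replicate (2 * (e' y).toNat) y.1).count x.1 = _
    rw [Multiset.count_sum', Finset.sum_eq_single x]
    · rw [Multiset.count_replicate_self]
    · intro y _ hy
      rw [Multiset.count_replicate, if_neg]
      intro h
      exact hy (Subtype.ext h)
    · intro h
      exact absurd (Finset.mem_univ _) h
  have hMm : ∀ w ∈ M, ∃ Q ∈ P '' {i | b i = bl x₀}, Rt Q w := by
    intro w hw'
    obtain ⟨x, _, hx⟩ := Multiset.mem_sum.mp hw'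
    rw [Multiset.mem_replicate] at hx
    obtain ⟨h1, rfl⟩ := hx
    refine ⟨P (ix x), ⟨ix x, ?_, rfl⟩, hix x⟩
    by_contra h2
    apply h1
    rw [hoff x h2]
    rfl
  have hMp : M.prod ^ s' = (((p : ℂ) ^ a) ^ (∑ x : XX P p a, (e' x).toNat)) ^ s' := by
    have h1 : M.prod = (∏ x : XX P p a, x.1 ^ (e' x).toNat) ^ 2 := by
      change (∑ y : XX P p a, Multiset.replicate (2 * (e' y).toNat) y.1).prod = _
      rw [Multiset.prod_sum, ← Finset.prod_pow]
      refine Finset.prod_congr rfl fun x _ => ?_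
      rw [Multiset.prod_replicate, ← pow_mul, mul_comm]
    set A := ∏ x : XX P p a, x.1 ^ (e' x).toNat with hA
    have hA0 : A ≠ 0 := Finset.prod_ne_zero_iff.mpr fun x _ => pow_ne_zero _ (x.ne0 hp hw)
    have h2 : ∏ x : XX P p a, x.1 ^ (e' (cj hp hw x)).toNat =
        ((p : ℂ) ^ a) ^ (∑ x : XX P p a, (e' x).toNat) / A := by
      have h3 : ∏ x : XX P p a, x.1 ^ (e' (cj hp hw x)).toNat =
          ∏ x : XX P p a, (cj hp hw x).1 ^ (e' x).toNat := by
        refine Finset.prod_bij' (fun x _ => cj hp hw x) (fun x _ => cj hp hw x)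
          (fun _ _ => Finset.mem_univ _) (fun _ _ => Finset.mem_univ _) (fun x _ => cj_cj hp hw x)
          (fun x _ => cj_cj hp hw x) fun x _ => ?_
        rw [cj_cj]
      rw [h3, hA, ← Finset.prod_pow_eq_pow_sum, ← Finset.prod_div_distrib]
      refine Finset.prod_congr rfl fun x _ => ?_
      change ((p : ℂ) ^ a / x.1) ^ (e' x).toNat = _
      rw [div_pow]
    have h3 : ∏ x : XX P p a, x.1 ^ e' x =
        A / ∏ x : XX P p a, x.1 ^ (e' (cj hp hw x)).toNat := by
      rw [hA, ← Finset.prod_div_distrib]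
      refine Finset.prod_congr rfl fun x _ => ?_
      rw [hodd', ← zpow_natCast, ← zpow_natCast, ← zpow_sub₀ (x.ne0 hp hw)]
      congr 1
      omega
    rw [h3, h2, div_div_eq_mul_div, ← sq, div_pow, div_eq_one_iff_eq
      (pow_ne_zero _ (pow_ne_zero _ hq0))] at hT
    rw [h1, hT]
  rcases hB.norel (bl x₀) M hMm _ s' hs' hMp z ⟨P (ix x₀), ⟨ix x₀, rfl, rfl⟩, hix x₀⟩ with h | h
  · exact absurd h hss
  · have h1 : M.count x₀.1 = M.count (cj hp hw x₀).1 := h
    rw [hMc, hMc, hodd'] at h1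
    have h2 : e' x₀ = 0 := by omega
    have h3 := he' x₀
    rw [if_pos rfl, h2] at h3
    have hk0 : (k : ℚ) ≠ 0 := Nat.cast_ne_zero.2 hk.ne'
    have h4 : (e x₀ : ℚ) = 0 := by
      rcases mul_eq_zero.1 (h3.trans Int.cast_zero) with h5 | h5
      · exact absurd h5 hk0
      · exact h5
    have h5 : e x₀ = 0 := by exact_mod_cast h4
    have h6 : (R.count z : ℤ) - R.count ((p : ℂ) ^ a / z) = 0 := h5
    omega

end Pool.Agent.K3h20.FB
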