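import Pool.Agent.K3h20.FB.Stm

/-!
# Independent blocks of Weil polynomials: definitions
-/

set_option autoImplicit false

open Polynomial NumberField

namespace Pool.Agent.K3h20.FB

/-- Two Weil polynomials `P` and `Q` are independent: a rational matrix `A z w`, indexed by complex
numbers, that is invariant under the automorphisms of the field of complex numbers and changes its sign
if a root `z` of `P` is replaced by its complex conjugate `q / z` or a root `w` of `Q` is replaced by
`q / w`, vanishes at all these `z`, `w` that are not supersingular. In other words: there is no nonzero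
Galois equivariant map between the spaces of the odd functions on the roots of `P` and of `Q` that are
not supersingular. -/
def Indep (p a : ℕ) (P Q : ℤ[X]) : Prop :=
  ∀ A : ℂ → ℂ → ℚ, (∀ (σ : ℂ ≃+* ℂ) (z w : ℂ), A (σ z) (σ w) = A z w) →
    (∀ z w, Rt P z → Rt Q w → A ((p : ℂ) ^ a / z) w = -A z w ∧ A z ((p : ℂ) ^ a / w) = -A z w) →
      ∀ z w, Rt P z → Rt Q w → SSg p a z ∨ SSg p a w ∨ A z w = 0

/-- The Weil polynomials `P i` form independent blocks (the block of `P i` is `b i`): in each block there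
are only trivial relations between the roots, and polynomials in different blocks are independent. -/
structure IsIndepBlocks (p a : ℕ) {κ J : Type} (P : κ → ℤ[X]) (b : κ → J) : Prop where
  weil : ∀ i, IsWeilPoly p a (P i)
  norel : ∀ j : J, NoRel p a (P '' {i | b i = j})
  indep : ∀ i k, b i ≠ b k → Indep p a (P i) (P k)

/-- DEC2: stable spaces of odd functions on independent blocks are direct sums -/
def S_DEC2 : Prop := ∀ (X J : Type) [Fintype X] [DecidableEq J] (H : Subgroup (Equiv.Perm X))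
  (inv : X → X) (_ : ∀ x, inv (inv x) = x) (_ : ∀ h ∈ H, ∀ x, h (inv x) = inv (h x))
  (bl : X → J) (_ : ∀ x, bl (inv x) = bl x) (_ : ∀ h ∈ H, ∀ x, bl (h x) = bl x)
  (_ : ∀ A : X → X → ℚ, (∀ h ∈ H, ∀ x y, A (h x) (h y) = A x y) →
    (∀ x y, A (inv x) y = -A x y) → (∀ x y, A x (inv y) = -A x y) →
      ∀ x y, bl x ≠ bl y → A x y = 0)
  (N : Submodule ℚ (X → ℚ)) (_ : ∀ c ∈ N, ∀ x, c (inv x) = -c x)
  (_ : ∀ h ∈ H, ∀ c ∈ N, (fun x => c (h x)) ∈ N),
  ∀ c ∈ N, ∀ j : J, (fun x => if bl x = j then c x else 0) ∈ N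

/-- DDG: irreducible CM fields of different degrees are independent -/
def S_DDG : Prop := ∀ (p a : ℕ), p.Prime → 0 < a → ∀ (E E' : Type) [Field E] [NumberField E]
  [IsCMField E] [Field E'] [NumberField E'] [IsCMField E'], IsIrrCM E → IsIrrCM E' →
  Module.finrank ℚ E ≠ Module.finrank ℚ E' → ∀ (π : E) (π' : E'), IsIntegral ℤ π → IsIntegral ℤ π' →
  (∀ φ : E →+* ℂ, ‖φ π‖ ^ 2 = (p : ℝ) ^ a) → (∀ φ : E' →+* ℂ, ‖φ π'‖ ^ 2 = (p : ℝ) ^ a) →
  Indep p a (minpoly ℤ π) (minpoly ℤ π')

end Pool.Agent.K3h20.FB
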