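import Pool.Agent.K3h20.FB.Blk
import Pool.Agent.K3h20.FB.Stm2

/-!
# Independent blocks have only trivial relations
-/

set_option autoImplicit false

open Polynomial

noncomputable section

namespace Pool.Agent.K3h20.FB

open Classical in
theorem norel_of_indep (hdec : S_DEC2) (p a : ℕ) (hp : p.Prime) (ha : 0 < a) (κ J : Type) [Finite κ]
    (P : κ → ℤ[X]) (b : κ → J) (hB : IsIndepBlocks p a P b) : NoRel p a (Set.range P) := by
  have hw := hB.weil
  haveI := finXX P hw
  letI := Fintype.ofFinite (XX P p a)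
  have hq0 := q_ne (a := a) hp
  -- blocks
  have hblk : ∀ (x : XX P p a) (i k : κ), Rt (P i) x.1 → Rt (P k) x.1 → b i = b k := by
    intro x i k hi hk
    by_contra hne
    have h1 := hB.indep i k hne (fun z w => (if z = w then 1 else 0) -
      (if z = (p : ℂ) ^ a / w then 1 else 0)) (by
        intro σ z w
        have e1 : σ z = σ w ↔ z = w := σ.injective.eq_iff
        have e2 : σ z = (p : ℂ) ^ a / σ w ↔ z = (p : ℂ) ^ a / w := by
          have : (p : ℂ) ^ a / σ w = σ ((p : ℂ) ^ a / w) := by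
            rw [map_div₀, map_pow, map_natCast]
          rw [this]
          exact σ.injective.eq_iff
        simp only [e1, e2])
      (by
        intro z w hz hw'
        have z0 := weil_ne hp ((hw i).2 z hz)
        have w0 := weil_ne hp ((hw k).2 w hw')
        have e1 : (p : ℂ) ^ a / z = w ↔ z = (p : ℂ) ^ a / w := by
          rw [div_eq_iff z0, eq_div_iff w0, mul_comm]
          exact eq_comm
        have e2 : (p : ℂ) ^ a / z = (p : ℂ) ^ a / w ↔ z = w := by
          rw [div_eq_div_iff z0 w0]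
          exact ⟨fun h => (mul_left_cancel₀ hq0 h).symm, fun h => by rw [h]⟩
        have e3 : (p : ℂ) ^ a / ((p : ℂ) ^ a / w) = w := by field_simp
        simp only [e1, e2, e3]
        constructor <;> ring) x.1 x.1 hi hk
    rcases h1 with h1 | h1 | h1
    · exact x.2.2 h1
    · exact x.2.2 h1
    · simp only [if_true] at h1
      have h2 : x.1 = (p : ℂ) ^ a / x.1 := by
        by_contra h3
        rw [if_neg h3] at h1
        norm_num at h1
      apply x.2.2
      refine ⟨1, one_pos, ?_⟩
      rw [eq_div_iff (x.ne0 hp hw), ← sq] at h2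
      rw [pow_one, pow_one, h2]
  choose ix hix using fun x : XX P p a => x.2.1
  let bl : XX P p a → J := fun x => b (ix x)
  have hbl : ∀ (x : XX P p a) (i : κ), Rt (P i) x.1 → bl x = b i := fun x i hi =>
    hblk x _ _ (hix x) hi
  intro R hR m s hs hprod z hz
  by_cases hss : SSg p a z
  · exact Or.inl hss
  right
  have hz' : ∃ i, Rt (P i) z := by
    obtain ⟨_, ⟨i, rfl⟩, h⟩ := hz
    exact ⟨i, h⟩
  have hR' : ∀ w ∈ R, ∃ i, Rt (P i) w := by
    intro w hw'
    obtain ⟨_, ⟨i, rfl⟩, h⟩ := hR w hw'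
    exact ⟨i, h⟩
  have hRn : ∀ w ∈ R, ‖w‖ ^ 2 = (p : ℝ) ^ a := by
    intro w hw'
    obtain ⟨i, hi⟩ := hR' w hw'
    exact (hw i).2 w hi
  have hcard := card_rel hp ha R hRn m s hs hprod
  let x₀ : XX P p a := ⟨z, hz', hss⟩
  let e : XX P p a → ℤ := fun x => (R.count x.1 : ℤ) - R.count (cj hp hw x).1
  -- the exponents form a relation
  have hTor : Tor e := by
    let f : ℂ → ℂ := fun z => z / ((p : ℂ) ^ a / z)
    let R1 := R.filter fun z => SSg p a z
    let R2 := R.filter fun z => ¬ SSg p a z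
    have hsum : R1 + R2 = R := Multiset.filter_add_not _ _
    have h1 : (R.map f).prod ^ s = 1 := by
      have h2 := prod_div (a := a) hp R fun w hw' => weil_ne hp (hRn w hw')
      have h3 : (R.map f).prod ^ s * (((p : ℂ) ^ a) ^ R.card) ^ s =
          (((p : ℂ) ^ a) ^ R.card) ^ s := by
        rw [← mul_pow]
        change ((R.map fun z => z / ((p : ℂ) ^ a / z)).prod * ((p : ℂ) ^ a) ^ R.card) ^ s = _
        rw [h2, ← pow_mul, mul_comm 2 s, pow_mul, hprod, hcard]
        ring
      exact (mul_eq_right₀ (pow_ne_zero _ (pow_ne_zero _ hq0))).mp h3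
    obtain ⟨t, ht, h2⟩ := tor_map R1 f (by
      intro w hw'
      obtain ⟨h3, t, ht, h4⟩ := Multiset.mem_filter.mp hw'
      refine ⟨t, ht, ?_⟩
      have h5 := weil_ne hp (hRn w h3)
      have h6 : f w = w ^ 2 / (p : ℂ) ^ a := by
        change w / ((p : ℂ) ^ a / w) = _
        field_simp
      rw [h6, div_pow, h4, div_self (pow_ne_zero _ hq0)])
    have h3 : (R2.map f).prod ^ (s * t) = 1 := by
      have h4 : (R.map f).prod = (R1.map f).prod * (R2.map f).prod := by
        rw [← Multiset.prod_add, ← Multiset.map_add, hsum]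
      have h5 : (R.map f).prod ^ (s * t) = 1 := by rw [pow_mul, h1, one_pow]
      rw [h4, mul_pow, mul_comm s t, pow_mul (R1.map f).prod, h2, one_pow, one_mul] at h5
      rw [mul_comm s t]
      exact h5
    refine ⟨s * t, Nat.mul_pos hs ht, ?_⟩
    rw [← h3]
    congr 1
    rw [prod_count (P := P) (p := p) (a := a) f R2 (by
      intro w hw'
      obtain ⟨h4, h5⟩ := Multiset.mem_filter.mp hw'
      exact ⟨hR' w h4, h5⟩)]
    have h4 : ∀ x : XX P p a, R2.count x.1 = R.count x.1 := fun x =>
      Multiset.count_filter_of_pos x.2.2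
    have h5 : ∏ x : XX P p a, f x.1 ^ R2.count x.1 =
        (∏ x : XX P p a, x.1 ^ (R.count x.1 : ℤ)) * ∏ x : XX P p a, (cj hp hw x).1 ^ (-(R.count x.1 : ℤ)) := by
      rw [← Finset.prod_mul_distrib]
      refine Finset.prod_congr rfl fun x _ => ?_
      rw [h4, zpow_neg, zpow_natCast, zpow_natCast]
      change (x.1 / ((p : ℂ) ^ a / x.1)) ^ R.count x.1 =
        x.1 ^ R.count x.1 * (((p : ℂ) ^ a / x.1) ^ R.count x.1)⁻¹
      rw [div_pow x.1, div_eq_mul_inv]
    have h6 : ∏ x : XX P p a, (cj hp hw x).1 ^ (-(R.count x.1 : ℤ)) =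
        ∏ x : XX P p a, x.1 ^ (-(R.count (cj hp hw x).1 : ℤ)) := by
      refine Finset.prod_bij' (fun x _ => cj hp hw x) (fun x _ => cj hp hw x)
        (fun _ _ => Finset.mem_univ _) (fun _ _ => Finset.mem_univ _) (fun x _ => cj_cj hp hw x)
        (fun x _ => cj_cj hp hw x) fun x _ => ?_
      rw [cj_cj]
    rw [h5, h6, ← Finset.prod_mul_distrib]
    refine Finset.prod_congr rfl fun x _ => ?_
    rw [← zpow_add₀ (x.ne0 hp hw)]
    rfl
  have hodd : ∀ x, e (cj hp hw x) = - e x := by
    intro x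
    change (R.count (cj hp hw x).1 : ℤ) - R.count (cj hp hw (cj hp hw x)).1 =
      -((R.count x.1 : ℤ) - R.count (cj hp hw x).1)
    rw [cj_cj]
    ring
  have hmem : (fun x => (e x : ℚ)) ∈ NN hp hw := by
    refine ⟨fun x => ?_, 1, one_pos, e, fun x => ?_, hTor⟩
    · change ((e (cj hp hw x) : ℤ) : ℚ) = -((e x : ℤ) : ℚ)
      rw [hodd]
      push_cast
      rfl
    · push_cast
      ring
  -- the component in the block of `z`
  have hcomp := hdec (XX P p a) J (HH p a P) (cj hp hw) (cj_cj hp hw)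
    (by
      rintro h ⟨σ, hσ⟩ x
      apply Subtype.ext
      change (h (cj hp hw x)).1 = (p : ℂ) ^ a / (h x).1
      rw [hσ, hσ]
      change σ ((p : ℂ) ^ a / x.1) = _
      rw [map_div₀, map_pow, map_natCast])
    bl
    (by
      intro x
      refine hbl _ _ ?_
      change Rt (P (ix x)) ((p : ℂ) ^ a / x.1)
      rw [← weil_conj hp ((hw _).2 _ (hix x))]
      exact rt_map (hix x) _)
    (by
      rintro h ⟨σ, hσ⟩ x
      refine hbl _ _ ?_
      rw [hσ]
      exact rt_map (hix x) (σ : ℂ →+* ℂ))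
    (by
      intro A hA1 hA2 hA3 x y hxy
      let InX : ℂ → Prop := fun z => (∃ i, Rt (P i) z) ∧ ¬ SSg p a z
      have hInσ : ∀ (σ : ℂ ≃+* ℂ) (z : ℂ), InX (σ z) → InX z := by
        rintro σ z ⟨⟨i, hi⟩, h⟩
        refine ⟨⟨i, ?_⟩, fun h1 => h ?_⟩
        · have := rt_map hi (σ.symm : ℂ →+* ℂ)
          rwa [RingEquiv.coe_toRingHom, RingEquiv.symm_apply_apply] at this
        · apply ss_map σ.symm
          rw [RingEquiv.symm_apply_apply]
          exact h1
      let A' : ℂ → ℂ → ℚ := fun z w => if h : InX z ∧ InX w then A ⟨z, h.1⟩ ⟨w, h.2⟩ else 0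
      have hA' : ∀ (u v : XX P p a), A' u.1 v.1 = A u v := fun u v => dif_pos ⟨u.2, v.2⟩
      have hA0 : ∀ z w, ¬ (InX z ∧ InX w) → A' z w = 0 := fun z w h => dif_neg h
      have key := hB.indep (ix x) (ix y) hxy A'
        (by
          intro σ z w
          by_cases h : InX z ∧ InX w
          · let u : XX P p a := ⟨z, h.1⟩
            let v : XX P p a := ⟨w, h.2⟩
            have h1 : A' (pm σ u).1 (pm σ v).1 = A' u.1 v.1 := by
              rw [hA', hA']
              exact hA1 (pm σ) (pm_mem σ) u v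
            exact h1
          · rw [hA0 _ _ h, hA0 _ _ fun h1 => h ⟨hInσ σ z h1.1, hInσ σ w h1.2⟩])
        (by
          intro z w hz hw'
          have z0 := weil_ne hp ((hw _).2 z hz)
          have w0 := weil_ne hp ((hw _).2 w hw')
          by_cases h1 : SSg p a z
          · have h2 : ¬ InX z := fun h => h.2 h1
            have h3 : ¬ InX ((p : ℂ) ^ a / z) := fun h => h.2 (by
              apply ss_div hp (div_ne_zero hq0 z0)
              rw [div_div_cancel₀ hq0]
              exact h1)
            rw [hA0 _ _ fun h => h2 h.1, hA0 _ _ fun h => h3 h.1, hA0 _ _ fun h => h2 h.1]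
            exact ⟨by ring, by ring⟩
          · by_cases h4 : SSg p a w
            · have h2 : ¬ InX w := fun h => h.2 h4
              have h3 : ¬ InX ((p : ℂ) ^ a / w) := fun h => h.2 (by
                apply ss_div hp (div_ne_zero hq0 w0)
                rw [div_div_cancel₀ hq0]
                exact h4)
              rw [hA0 _ _ fun h => h2 h.2, hA0 _ _ fun h => h3 h.2, hA0 _ _ fun h => h2 h.2]
              exact ⟨by ring, by ring⟩
            · let u : XX P p a := ⟨z, ⟨_, hz⟩, h1⟩
              let v : XX P p a := ⟨w, ⟨_, hw'⟩, h4⟩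
              have e1 : A' (cj hp hw u).1 v.1 = - A' u.1 v.1 := by
                rw [hA', hA']
                exact hA2 u v
              have e2 : A' u.1 (cj hp hw v).1 = - A' u.1 v.1 := by
                rw [hA', hA']
                exact hA3 u v
              exact ⟨e1, e2⟩)
        x.1 y.1 (hix x) (hix y)
      rcases key with h | h | h
      · exact absurd h x.2.2
      · exact absurd h y.2.2
      · rw [← hA']
        exact h)
    (NN hp hw) (fun c hc x => hc.1 x)
    (by
      rintro h ⟨σ, hσ⟩ c ⟨o, k, hk, e', he', s', hs', h'⟩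
      have hcomm : ∀ x, h (cj hp hw x) = cj hp hw (h x) := by
        intro x
        apply Subtype.ext
        change (h (cj hp hw x)).1 = (p : ℂ) ^ a / (h x).1
        rw [hσ, hσ]
        change σ ((p : ℂ) ^ a / x.1) = _
        rw [map_div₀, map_pow, map_natCast]
      refine ⟨fun x => ?_, k, hk, fun x => e' (h x), fun x => he' _, s', hs', ?_⟩
      · change c (h (cj hp hw x)) = - c (h x)
        rw [hcomm, o]
      · have h1 : σ ((∏ x : XX P p a, x.1 ^ e' (h x)) ^ s') = 1 := by
          rw [map_pow, map_prod, ← h']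
          congr 1
          rw [← Equiv.prod_comp h fun x : XX P p a => x.1 ^ e' x]
          refine Finset.prod_congr rfl fun x _ => ?_
          rw [map_zpow₀, hσ]
        exact σ.injective (h1.trans (map_one σ).symm))
    _ hmem (bl x₀)
  obtain ⟨ho₁, k, hk, e', he₁, s', hs', hT⟩ := hcomp
  have he' : ∀ x, (k : ℚ) * (if bl x = bl x₀ then (e x : ℚ) else 0) = e' x := he₁
  have ho : ∀ x, (if bl (cj hp hw x) = bl x₀ then (e (cj hp hw x) : ℚ) else 0) =
    -(if bl x = bl x₀ then (e x : ℚ) else 0) := ho₁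
  have hoff : ∀ x, bl x ≠ bl x₀ → e' x = 0 := by
    intro x hx
    have h1 := he' x
    rw [if_neg hx, mul_zero] at h1
    exact_mod_cast h1.symm
  have hodd' : ∀ x, e' (cj hp hw x) = - e' x := by
    intro x
    have h1 := he' (cj hp hw x)
    have h2 := he' x
    have h3 := ho x
    rw [h3, mul_neg, h2] at h1
    exact_mod_cast h1.symm
  -- the multiset
  let M : Multiset ℂ := ∑ x : XX P p a, Multiset.replicate (2 * (e' x).toNat) x.1
  have hMc : ∀ x : XX P p a, M.count x.1 = 2 * (e' x).toNat := by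
    intro x
    change (∑ y : XX P p a, Multiset.replicate (2 * (e' y).toNat) y.1).count x.1 = _
    rw [Multiset.count_sum', Finset.sum_eq_single x]
    · rw [Multiset.count_replicate_self]
    · intro y _ hy
      rw [Multiset.count_replicate, if_neg]
      intro h
      exact hy (Subtype.ext h)
    · intro h
      exact absurd (Finset.mem_univ _) h
  have hMm : ∀ w ∈ M, ∃ Q ∈ P '' {i | b i = bl x₀}, Rt Q w := by
    intro w hw'
    obtain ⟨x, _, hx⟩ := Multiset.mem_sum.mp hw'
    rw [Multiset.mem_replicate] at hx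
    obtain ⟨h1, rfl⟩ := hx
    refine ⟨P (ix x), ⟨ix x, ?_, rfl⟩, hix x⟩
    by_contra h2
    apply h1
    rw [hoff x h2]
    rfl
  have hMp : M.prod ^ s' = (((p : ℂ) ^ a) ^ (∑ x : XX P p a, (e' x).toNat)) ^ s' := by
    have h1 : M.prod = (∏ x : XX P p a, x.1 ^ (e' x).toNat) ^ 2 := by
      change (∑ y : XX P p a, Multiset.replicate (2 * (e' y).toNat) y.1).prod = _
      rw [Multiset.prod_sum, ← Finset.prod_pow]
      refine Finset.prod_congr rfl fun x _ => ?_
      rw [Multiset.prod_replicate, ← pow_mul, mul_comm]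
    set A := ∏ x : XX P p a, x.1 ^ (e' x).toNat with hA
    have hA0 : A ≠ 0 := Finset.prod_ne_zero_iff.mpr fun x _ => pow_ne_zero _ (x.ne0 hp hw)
    have h2 : ∏ x : XX P p a, x.1 ^ (e' (cj hp hw x)).toNat =
        ((p : ℂ) ^ a) ^ (∑ x : XX P p a, (e' x).toNat) / A := by
      have h3 : ∏ x : XX P p a, x.1 ^ (e' (cj hp hw x)).toNat =
          ∏ x : XX P p a, (cj hp hw x).1 ^ (e' x).toNat := by
        refine Finset.prod_bij' (fun x _ => cj hp hw x) (fun x _ => cj hp hw x)
          (fun _ _ => Finset.mem_univ _) (fun _ _ => Finset.mem_univ _) (fun x _ => cj_cj hp hw x)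
          (fun x _ => cj_cj hp hw x) fun x _ => ?_
        rw [cj_cj]
      rw [h3, hA, ← Finset.prod_pow_eq_pow_sum, ← Finset.prod_div_distrib]
      refine Finset.prod_congr rfl fun x _ => ?_
      change ((p : ℂ) ^ a / x.1) ^ (e' x).toNat = _
      rw [div_pow]
    have h3 : ∏ x : XX P p a, x.1 ^ e' x =
        A / ∏ x : XX P p a, x.1 ^ (e' (cj hp hw x)).toNat := by
      rw [hA, ← Finset.prod_div_distrib]
      refine Finset.prod_congr rfl fun x _ => ?_
      rw [hodd', ← zpow_natCast, ← zpow_natCast, ← zpow_sub₀ (x.ne0 hp hw)]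
      congr 1
      omega
    rw [h3, h2, div_div_eq_mul_div, ← sq, div_pow, div_eq_one_iff_eq
      (pow_ne_zero _ (pow_ne_zero _ hq0))] at hT
    rw [h1, hT]
  rcases hB.norel (bl x₀) M hMm _ s' hs' hMp z ⟨P (ix x₀), ⟨ix x₀, rfl, rfl⟩, hix x₀⟩ with h | h
  · exact absurd h hss
  · have h1 : M.count x₀.1 = M.count (cj hp hw x₀).1 := h
    rw [hMc, hMc, hodd'] at h1
    have h2 : e' x₀ = 0 := by omega
    have h3 := he' x₀
    rw [if_pos rfl, h2] at h3
    have hk0 : (k : ℚ) ≠ 0 := Nat.cast_ne_zero.2 hk.ne'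
    have h4 : (e x₀ : ℚ) = 0 := by
      rcases mul_eq_zero.1 (h3.trans Int.cast_zero) with h5 | h5
      · exact absurd h5 hk0
      · exact h5
    have h5 : e x₀ = 0 := by exact_mod_cast h4
    have h6 : (R.count z : ℤ) - R.count ((p : ℂ) ^ a / z) = 0 := h5
    omega

end Pool.Agent.K3h20.FB
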