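import Pool.Agent.K3h20.FB.Stm2
import Pool.Agent.K3h30.NS.Defs
import Pool.Agent.K3h98.TW.Defs
import Pool.Agent.W495.FM.HomDefs

/-!
# Abelian varieties over finite fields that belong to independent blocks of Weil polynomials: definitions
-/

set_option autoImplicit false

open Polynomial NumberField

namespace Pool.Agent.K3h20.FB

open Pool.Agent.W495.TA Pool.Agent.W495.FM

/-- The abelian variety `Y` belongs to independent blocks: for some finite family of Weil polynomials
`P i` for `q = p ^ a` that form independent blocks, each factor of `Y` is supersingular or, over an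
algebraic closure, isogenous to the simple abelian variety of a root of one of the `P i` (a power of its
Frobenius endomorphism is a power of this root, `OfPolys`). -/
def IsBlockAV {p : ℕ} [Fact p.Prime] {ν : PadicAlgCl p ≃+* ℂ} (Y : RedAV p ν) : Prop :=
  ∃ (a : ℕ) (κ J : Type) (_ : Finite κ) (P : κ → ℤ[X]) (b : κ → J), 0 < a ∧
    IsIndepBlocks p a P b ∧ Pool.Agent.K3h30.NS.OfPolys a P Y

/-- The groups of motivic and of `ℓ`-adic homology of `X` are those of an abelian variety `Y` which
belongs to independent blocks. -/
def IsBlockAbelian (p : ℕ) [Fact p.Prime] (ν : PadicAlgCl p ≃+* ℂ) {Ω V : Type} [Field Ω]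
    [CharZero Ω] (T : Homology Ω V) (X : V) : Prop :=
  ∃ (Y : RedAV p ν) (C : Cycles Ω Y) (D : Motivic C) (g : ℕ), IsBlockAV Y ∧ IsChow C ∧
    IsMotivic D ∧ IsAbelian T X D g

/-- The CM field `E'` is flipped over `E`: for all complex embeddings `φ` of `E` and `ψ` of `E'` some
automorphism of the field of complex numbers is the identity on `φ (E)` and complex conjugation on
`ψ (E')`. -/
def IsFlipped (E E' : Type) [Field E] [Field E'] : Prop :=
  ∀ (φ : E →+* ℂ) (ψ : E' →+* ℂ), ∃ σ : ℂ ≃+* ℂ, (∀ x, σ (φ x) = φ x) ∧
    ∀ y, σ (ψ y) = starRingEnd ℂ (ψ y)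

/-- The CM field `E'` is not contained in the Galois closure of `E`: some automorphism of the field of
complex numbers is the identity on all conjugates `φ (E)` but not on all conjugates `ψ (E')`. -/
def IsOutside (E E' : Type) [Field E] [Field E'] : Prop :=
  ∃ g : ℂ ≃+* ℂ, (∀ (φ : E →+* ℂ) (x : E), g (φ x) = φ x) ∧
    ∃ (ψ : E' →+* ℂ) (y : E'), g (ψ y) ≠ ψ y

/-- Sufficient conditions for the independence of Weil numbers in the CM fields `E` and `E'`: `E'` is
flipped over `E`, or one of the fields is irreducible and not contained in the Galois closure of the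
other one, or both are irreducible and their degrees are different. -/
def AreApart (E E' : Type) [Field E] [NumberField E] [Field E'] [NumberField E'] : Prop :=
  IsFlipped E E' ∨ (IsIrrCM E' ∧ IsOutside E E') ∨ (IsIrrCM E ∧ IsOutside E' E) ∨
    (IsIrrCM E ∧ IsIrrCM E' ∧ Module.finrank ℚ E ≠ Module.finrank ℚ E')

/-- The block `j` consists of Weil numbers in fields of `2`-power degrees, with discriminants that are
independent modulo squares, and with odd slopes: the numbers `2 v (τ (π i)) - a` are odd multiples of a
number `κ ≠ 0` which does not depend on the embedding `τ` (for instance, `π i` is ordinary: they are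
`a` and `-a`). -/
def IsTwoPowerBlock (p a : ℕ) [Fact p.Prime] {κ J : Type} (E : κ → Type) [∀ i, Field (E i)]
    [∀ i, NumberField (E i)] (π : ∀ i, E i) (b : κ → J) (j : J) : Prop :=
  (∀ i, b i = j → IntermediateField.adjoin ℚ {π i} = ⊤ ∧
    (∃ k : ℕ, Module.finrank ℚ (E i) = 2 ^ (k + 1)) ∧
    ∃ c : ℚ, c ≠ 0 ∧ ∀ τ : E i →+* PadicAlgCl p, ∃ o : ℤ, Odd o ∧
      2 * (- Real.logb p ‖τ (π i)‖) - a = (c : ℝ) * o) ∧
  ∀ S : Finset κ, S.Nonempty → (∀ i ∈ S, b i = j) → ¬ IsSquare (∏ i ∈ S, NumberField.discr (E i))

/-- Criterion for independent blocks. Let `π i` be Weil numbers for `q = p ^ a` in finitely many CM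
fields `E i`, divided into blocks, such that each block consists of one irreducible field, or is a block
of fields of `2`-power degrees with independent discriminants and odd slopes; and such that `E i` and
`E k` are apart (`AreApart`) for `i` and `k` in different blocks. Then the minimal polynomials of the
`π i` form independent blocks. -/
def FieldCriterion : Prop :=
  ∀ (p : ℕ) [Fact p.Prime] (a : ℕ), 0 < a → ∀ (κ J : Type) [Finite κ] (E : κ → Type)
    [∀ i, Field (E i)] [∀ i, NumberField (E i)] [∀ i, IsCMField (E i)] (π : ∀ i, E i) (b : κ → J),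
    (∀ i, IsIntegral ℤ (π i)) → (∀ i, ∀ φ : E i →+* ℂ, ‖φ (π i)‖ ^ 2 = (p : ℝ) ^ a) →
    (∀ j, (∃ i, IsIrrCM (E i) ∧ ∀ k, b k = j → k = i) ∨ IsTwoPowerBlock p a E π b j) →
    (∀ i k, b i ≠ b k → AreApart (E i) (E k)) →
    IsIndepBlocks p a (fun i => minpoly ℤ (π i)) b

/-- Irreducible CM fields: CM fields of degree `2 ℓ`, with an odd prime number `ℓ`, without imaginary
quadratic subfields (`IsPrimeCM`), and CM fields of `2`-power degree whose complex embeddings are
permuted in one cycle by some automorphism of the field of complex numbers (`IsTwoPowerCycle`: for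
instance imaginary quadratic fields, cyclic fields of such degrees, all quartic CM fields that are not
biquadratic). -/
def IrrCriterion : Prop :=
  ∀ (E : Type) [Field E] [NumberField E] [IsCMField E],
    (∃ ℓ, Pool.Agent.K3h98.TW.IsPrimeCM E ℓ) ∨ Pool.Agent.K3h98.TW.IsTwoPowerCycle E → IsIrrCM E

/-- Weil polynomials `P` and `Q` are independent if for all roots `z` of `P` and `w` of `Q`, `w` not
supersingular, some automorphism of the field of complex numbers fixes `z` and interchanges `w` and
`q / w`. -/
def FlipCriterion : Prop :=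
  ∀ (p a : ℕ), p.Prime → ∀ P Q : ℤ[X],
    (∀ z w, Rt P z → Rt Q w → SSg p a w ∨ ∃ σ : ℂ ≃+* ℂ, σ z = z ∧ σ w = (p : ℂ) ^ a / w) →
      Indep p a P Q

/-- The criteria for independent blocks. -/
def BlockCriteria : Prop := FieldCriterion ∧ IrrCriterion ∧ FlipCriterion

end Pool.Agent.K3h20.FB
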