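import Pool.Agent.K3h20.FB.Main
import Pool.Agent.K3h23.FB.Dec2
import Pool.Agent.K3h33.FB.Ddg
import Pool.Agent.K3h68.FB.Clo

/-!
# Abelian varieties over finite fields that belong to independent blocks of Weil polynomials: results
-/

set_option autoImplicit false

namespace Pool.Agent.K3h20.FB

open Pool.Agent.W495.TA Pool.Agent.W495.FM Pool.Agent.TH117 Pool.Agent.TH117.GN

theorem blockCriteria : BlockCriteria :=
  ⟨fieldCriterion Pool.Agent.K3h33.FB.t_DDG Pool.Agent.K3h68.FB.t_CLO, irrCriterion, flipCriterion⟩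

variable {p : ℕ} [Fact p.Prime] {ν : PadicAlgCl p ≃+* ℂ}

theorem tb_blocks {Ω V : Type} [Field Ω] [IsAlgClosed Ω] [CharZero Ω] {T : Homology Ω V}
    (hT : IsHomology T) {X : V} (hX : Generated T (IsBlockAbelian p ν T) X) : TB T X :=
  tb_block Pool.Agent.K3h23.FB.t_DEC2 hT hX

theorem onto_blocks {Ω V : Type} [Field Ω] [IsAlgClosed Ω] [CharZero Ω] {T : Homology Ω V}
    (hT : IsHomology T) (hW : HasWeights T) {X : V}
    (hX : Spread T (fun X => Generated T (IsBlockAbelian p ν T) X ∨ ∀ i, IsOnto T X i) X)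
    (i : ℤ) : IsOnto T X i :=
  onto_block Pool.Agent.K3h23.FB.t_DEC2 hT hW hX i

end Pool.Agent.K3h20.FB
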