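import Pool.Agent.K3h20.FB.Stm2

/-!
# Irreducible CM fields and Galois closures: statement
-/

set_option autoImplicit false

open Polynomial NumberField

namespace Pool.Agent.K3h20.FB

/-- CLO: an irreducible CM field `E'` is independent of every CM field `E` whose Galois closure does not
contain `E'` -/
def S_CLO : Prop := ∀ (p a : ℕ), p.Prime → 0 < a → ∀ (E E' : Type) [Field E] [NumberField E]
  [IsCMField E] [Field E'] [NumberField E'] [IsCMField E'], IsIrrCM E' →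
  (∃ g : ℂ ≃+* ℂ, (∀ (φ : E →+* ℂ) (x : E), g (φ x) = φ x) ∧
    ∃ (ψ : E' →+* ℂ) (y : E'), g (ψ y) ≠ ψ y) →
  ∀ (π : E) (π' : E'), IsIntegral ℤ π → IsIntegral ℤ π' →
  (∀ φ : E →+* ℂ, ‖φ π‖ ^ 2 = (p : ℝ) ^ a) → (∀ φ : E' →+* ℂ, ‖φ π'‖ ^ 2 = (p : ℝ) ^ a) →
  Indep p a (minpoly ℤ π) (minpoly ℤ π')

end Pool.Agent.K3h20.FB
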