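import Pool.Agent.K3h20.FB.Defs
import Pool.Agent.K3h20.FB.Blk2
import Pool.Agent.K3h20.FB.Stm3
import Pool.Agent.K3h30.NS.Main
import Pool.Agent.K3h98.TW.Main
import Pool.Agent.K3h72.FB.Two
import Pool.Agent.K3h33.FB.Irr
import Pool.Agent.K3h51.FB.Flp

/-!
# Abelian varieties over finite fields that belong to independent blocks of Weil polynomials: proofs
-/

set_option autoImplicit false

open Polynomial NumberField

namespace Pool.Agent.K3h20.FB

open Pool.Agent.W495.TA Pool.Agent.W495.FM Pool.Agent.TH117 Pool.Agent.TH117.GN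
  Pool.Agent.K3h30.NS

theorem flipCriterion : FlipCriterion := by
  intro p a hp P Q h A hA1 hA2 z w hz hw
  rcases h z w hz hw with h1 | ⟨σ, h1, h2⟩
  · exact Or.inr (Or.inl h1)
  · refine Or.inr (Or.inr ?_)
    have e1 := hA1 σ z w
    rw [h1, h2, (hA2 z w hz hw).2] at e1
    linarith

theorem irrCriterion : IrrCriterion := fun E _ _ _ h => Pool.Agent.K3h98.TW.tower_criteria.2 E h

theorem indep_symm {p a : ℕ} {P Q : ℤ[X]} (h : Indep p a P Q) : Indep p a Q P := by
  intro A hA1 hA2 z w hz hw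
  rcases h (fun u v => A v u) (fun σ u v => hA1 σ v u)
    (fun u v hu hv => ⟨(hA2 v u hv hu).2, (hA2 v u hv hu).1⟩) w z hw hz with h1 | h1 | h1
  · exact Or.inr (Or.inl h1)
  · exact Or.inl h1
  · exact Or.inr (Or.inr h1)

theorem fieldCriterion (hddg : S_DDG) (hclo : S_CLO) : FieldCriterion := by
  intro p _ a ha κ J _ E _ _ _ π b hint hweil hblock hind
  have hp : p.Prime := Fact.out
  classical
  refine ⟨fun i => ?_, fun j => ?_, fun i k hik => ?_⟩
  · -- Weil polynomials
    refine ⟨minpoly.monic (hint i), fun z hz => ?_⟩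
    obtain ⟨φ, rfl⟩ := Pool.Agent.K3h51.FB.exists_emb (hint i) hz
    exact hweil i φ
  · rcases hblock j with ⟨i, hi, h1⟩ | ⟨h1, h2⟩
    · intro R hR m s hs hprod z hz
      refine (Pool.Agent.K3h33.FB.t_IRR p a hp ha (E i) hi (π i) (hint i) (hweil i)).2 R ?_ m s hs
        hprod z ?_
      · intro w hw
        obtain ⟨_, ⟨k, hk, rfl⟩, h3⟩ := hR w hw
        have hk' : b k = j := hk
        obtain rfl := h1 k hk'
        exact ⟨_, rfl, h3⟩
      · obtain ⟨_, ⟨k, hk, rfl⟩, h3⟩ := hz
        have hk' : b k = j := hk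
        obtain rfl := h1 k hk'
        exact ⟨_, rfl, h3⟩
    · choose! hg hk hc using h1
      choose! k hk using hk
      choose! c hc0 hc using hc
      choose! o ho hoc using hc
      have key := (Pool.Agent.K3h72.FB.t_TWO p a ha {i : κ // b i = j} (fun i => E i.1)
        (fun i => k i.1) (fun i => hk i.1 i.2)
        (by
          intro S hS hsq
          refine h2 (S.map (Function.Embedding.subtype _)) (hS.map) (fun i hi => ?_) ?_
          · obtain ⟨i', _, rfl⟩ := Finset.mem_map.mp hi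
            exact i'.2
          · rw [Finset.prod_map]
            exact hsq)
        (fun i => π i.1) (fun i => hint i.1) (fun i => hg i.1 i.2) (fun i => hweil i.1)
        (fun i => c i.1) (fun i => hc0 i.1 i.2) (fun i => o i.1) (fun i τ => ho i.1 i.2 τ)
        (fun i τ => hoc i.1 i.2 τ)).2
      have e : (Set.range fun i : {i : κ // b i = j} => minpoly ℤ (π i.1)) =
          (fun i => minpoly ℤ (π i)) '' {i | b i = j} := by
        ext Q
        constructor
        · rintro ⟨i, rfl⟩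
          exact ⟨i.1, i.2, rfl⟩
        · rintro ⟨i, hi, rfl⟩
          exact ⟨⟨i, hi⟩, rfl⟩
      rw [← e]
      exact key
  · rcases hind i k hik with h | ⟨h1, h2⟩ | ⟨h1, h2⟩ | ⟨h1, h2, h3⟩
    · refine flipCriterion p a hp _ _ fun z w hz hw => Or.inr ?_
      exact Pool.Agent.K3h51.FB.t_FLP p a hp (E i) (E k) (π i) (π k) (hint i) (hint k) (hweil k) h
        z w hz hw
    · exact hclo p a hp ha (E i) (E k) h1 h2 (π i) (π k) (hint i) (hint k) (hweil i) (hweil k)
    · exact indep_symm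
        (hclo p a hp ha (E k) (E i) h1 h2 (π k) (π i) (hint k) (hint i) (hweil k) (hweil i))
    · exact hddg p a hp ha (E i) (E k) h1 h2 h3 (π i) (π k) (hint i) (hint k) (hweil i) (hweil k)

variable {p : ℕ} [Fact p.Prime] {ν : PadicAlgCl p ≃+* ℂ}

theorem elem_of_block (hdec : S_DEC2) {Y : RedAV p ν} (hY : IsBlockAV Y) :
    ∃ Z : RedAV p ν, BL.HasElementaryRelations Z ∧ BL.IsPowersTimesSupersingular Z Y := by
  obtain ⟨a, κ, J, _, P, b, ha, hB, hY⟩ := hY
  letI := Fintype.ofFinite κ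
  have h1 := norel_of_indep hdec p a Fact.out ha κ J P b hB
  have hn : Neat p a P := by
    intro R hR m s hs hprod z hz
    refine h1 R (fun w hw => ?_) m s hs hprod z ?_
    · obtain ⟨i, hi⟩ := hR w hw
      exact ⟨_, ⟨i, rfl⟩, hi⟩
    · obtain ⟨i, hi⟩ := hz
      exact ⟨_, ⟨i, rfl⟩, hi⟩
  exact ⟨Y, elementary_of_neat hn ha (fun i => (hB.weil i).1) (fun i z hz => (hB.weil i).2 z hz) hY,
    fun k => Or.inr ⟨k, RingHom.id _, 1, 1, one_pos, one_pos, rfl, rfl⟩⟩

theorem tb_block (hdec : S_DEC2) {Ω V : Type} [Field Ω] [IsAlgClosed Ω] [CharZero Ω]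
    {T : Homology Ω V} (hT : IsHomology T) {X : V} (hX : Generated T (IsBlockAbelian p ν T) X) :
    TB T X := by
  refine tb_generated hT (fun X hX => ?_) hX
  obtain ⟨Y, C, D, g, h1, hC, hD, hX⟩ := hX
  obtain ⟨Z, h2, h3⟩ := elem_of_block hdec h1
  exact tb_abelian hT hC (tateHolds_elem h2 h3 hC) hD hX

theorem onto_block (hdec : S_DEC2) {Ω V : Type} [Field Ω] [IsAlgClosed Ω] [CharZero Ω]
    {T : Homology Ω V} (hT : IsHomology T) (hW : HasWeights T) {X : V}
    (hX : Spread T (fun X => Generated T (IsBlockAbelian p ν T) X ∨ ∀ i, IsOnto T X i) X)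
    (i : ℤ) : IsOnto T X i := by
  refine onto_spread hT hW (fun X h1 i => ?_) hX i
  rcases h1 with h1 | h1
  · exact ((tb_block hdec hT h1).iso hT i).1
  · exact h1 i

end Pool.Agent.K3h20.FB
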