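import Mathlib

/-!
# Weil polynomials with only trivial relations between their roots: definitions

`q = p ^ a` is the number of elements of a finite field.
-/

set_option autoImplicit false

open Polynomial NumberField

namespace Pool.Agent.K3h20.FB

/-- `z` is a complex root of `P`. -/
def Rt (P : ℤ[X]) (z : ℂ) : Prop := (P.map (Int.castRingHom ℂ)).IsRoot z

/-- `z` is supersingular: `z ^ 2 / q` is a root of unity. -/
def SSg (p a : ℕ) (z : ℂ) : Prop := ∃ t : ℕ, 0 < t ∧ (z ^ 2) ^ t = ((p : ℂ) ^ a) ^ t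

/-- The polynomial is monic and all its complex roots have absolute value `√q`. -/
def IsWeilPoly (p a : ℕ) (P : ℤ[X]) : Prop := P.Monic ∧ ∀ z, Rt P z → ‖z‖ ^ 2 = (p : ℝ) ^ a

/-- There are only trivial multiplicative relations between the roots of the polynomials in `S`: if the
product of some of these roots (with multiplicities, the multiset `R`) is, up to a root of unity, a power
of `q`, then `z` and `q / z` have the same multiplicity in `R`, for each root `z` which is not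
supersingular. -/
def NoRel (p a : ℕ) (S : Set ℤ[X]) : Prop :=
  ∀ R : Multiset ℂ, (∀ z ∈ R, ∃ P ∈ S, Rt P z) → ∀ m s : ℕ, 0 < s →
    R.prod ^ s = (((p : ℂ) ^ a) ^ m) ^ s →
      ∀ z : ℂ, (∃ P ∈ S, Rt P z) → SSg p a z ∨ R.count z = R.count ((p : ℂ) ^ a / z)

/-- The Weil polynomials `P i` form flipped blocks (the block of `P i` is `b i`): in each block there are
only trivial relations between the roots, and for a root `z` of `P i` and a root `w` of `P k`, where `i`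
and `k` are in different blocks, `w` is supersingular or some automorphism of the field of complex
numbers fixes `z` and interchanges `w` and its complex conjugate `q / w`. -/
structure IsFlippedBlocks (p a : ℕ) {κ J : Type} (P : κ → ℤ[X]) (b : κ → J) : Prop where
  weil : ∀ i, IsWeilPoly p a (P i)
  norel : ∀ j : J, NoRel p a (P '' {i | b i = j})
  flip : ∀ i k, b i ≠ b k → ∀ z w, Rt (P i) z → Rt (P k) w →
    SSg p a w ∨ ∃ σ : ℂ ≃+* ℂ, σ z = z ∧ σ w = (p : ℂ) ^ a / w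

/-- A rational function on the complex embeddings of `E` is odd if complex conjugation changes its
sign; the CM field `E` is irreducible if the space of these functions has no proper nonzero subspace that
is stable under the automorphisms of the field of complex numbers. -/
def IsIrrCM (E : Type) [Field E] : Prop :=
  ∀ W : Submodule ℚ ((E →+* ℂ) → ℚ), (∀ m ∈ W, ∀ φ, m (ComplexEmbedding.conjugate φ) = -m φ) →
    (∀ g : ℂ ≃+* ℂ, ∀ m ∈ W, (fun φ : E →+* ℂ => m ((g : ℂ →+* ℂ).comp φ)) ∈ W) →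
      W = ⊥ ∨ ∀ m : (E →+* ℂ) → ℚ, (∀ φ, m (ComplexEmbedding.conjugate φ) = -m φ) → m ∈ W

/-- DEC: stable spaces of odd functions on flipped blocks are direct sums -/
def S_DEC : Prop := ∀ (X J : Type) [Fintype X] [DecidableEq J] (H : Subgroup (Equiv.Perm X))
  (inv : X → X) (_ : ∀ x, inv (inv x) = x) (_ : ∀ h ∈ H, ∀ x, h (inv x) = inv (h x))
  (bl : X → J) (_ : ∀ x, bl (inv x) = bl x) (_ : ∀ h ∈ H, ∀ x, bl (h x) = bl x)
  (_ : ∀ x y, bl x ≠ bl y → ∃ h ∈ H, h x = x ∧ h y = inv y)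
  (N : Submodule ℚ (X → ℚ)) (_ : ∀ c ∈ N, ∀ x, c (inv x) = -c x)
  (_ : ∀ h ∈ H, ∀ c ∈ N, (fun x => c (h x)) ∈ N),
  ∀ c ∈ N, ∀ j : J, (fun x => if bl x = j then c x else 0) ∈ N

/-- BLK: flipped blocks have only trivial relations -/
def S_BLK : Prop := ∀ (p a : ℕ), p.Prime → 0 < a → ∀ (κ J : Type) [Finite κ] (P : κ → ℤ[X])
  (b : κ → J), IsFlippedBlocks p a P b → NoRel p a (Set.range P)

/-- TWO: CM fields of `2`-power degree with independent discriminants and odd slopes -/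
def S_TWO : Prop := ∀ (p : ℕ) [Fact p.Prime] (a : ℕ), 0 < a → ∀ (I : Type) [Finite I] (K : I → Type)
  [∀ i, Field (K i)] [∀ i, NumberField (K i)] [∀ i, IsCMField (K i)] (k : I → ℕ),
  (∀ i, Module.finrank ℚ (K i) = 2 ^ (k i + 1)) →
  (∀ S : Finset I, S.Nonempty → ¬ IsSquare (∏ i ∈ S, NumberField.discr (K i))) →
  ∀ π : ∀ i, K i, (∀ i, IsIntegral ℤ (π i)) → (∀ i, IntermediateField.adjoin ℚ {π i} = ⊤) →
  (∀ i, ∀ φ : K i →+* ℂ, ‖φ (π i)‖ ^ 2 = (p : ℝ) ^ a) →
  ∀ (κ : I → ℚ), (∀ i, κ i ≠ 0) → ∀ o : ∀ i, (K i →+* PadicAlgCl p) → ℤ, (∀ i τ, Odd (o i τ)) →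
  (∀ i, ∀ τ : K i →+* PadicAlgCl p,
    2 * (- Real.logb p ‖τ (π i)‖) - a = (κ i : ℝ) * o i τ) →
  (∀ i, IsWeilPoly p a (minpoly ℤ (π i))) ∧ NoRel p a (Set.range fun i => minpoly ℤ (π i))

/-- IRR: irreducible CM fields -/
def S_IRR : Prop := ∀ (p a : ℕ), p.Prime → 0 < a → ∀ (E : Type) [Field E] [NumberField E] [IsCMField E],
  IsIrrCM E → ∀ π : E, IsIntegral ℤ π → (∀ φ : E →+* ℂ, ‖φ π‖ ^ 2 = (p : ℝ) ^ a) →
  IsWeilPoly p a (minpoly ℤ π) ∧ NoRel p a {minpoly ℤ π}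

/-- FLP: flips of CM fields give flips of Weil numbers -/
def S_FLP : Prop := ∀ (p a : ℕ), p.Prime → ∀ (E E' : Type) [Field E] [NumberField E] [Field E']
  [NumberField E'] (π : E) (π' : E'), IsIntegral ℤ π → IsIntegral ℤ π' →
  (∀ φ : E' →+* ℂ, ‖φ π'‖ ^ 2 = (p : ℝ) ^ a) →
  (∀ (φ : E →+* ℂ) (ψ : E' →+* ℂ), ∃ σ : ℂ ≃+* ℂ, (∀ x, σ (φ x) = φ x) ∧
    ∀ y, σ (ψ y) = starRingEnd ℂ (ψ y)) →
  ∀ z w, Rt (minpoly ℤ π) z → Rt (minpoly ℤ π') w →
    ∃ σ : ℂ ≃+* ℂ, σ z = z ∧ σ w = (p : ℂ) ^ a / w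

end Pool.Agent.K3h20.FB
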